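import Pool.Agent.H21.GH.Mot
import Pool.Graph.R_pool_sql_team_seeded_2aa45f1a.Q193.LT.Per

/-!
# The period conjecture and graph hypersurfaces

For a finite simple graph `G` with the vertices `1, …, n` let `Ĝ` be the cone over `G`: the graph with
one more vertex, which is joined to all vertices of `G`. Let `x_v` be the variable of the edge between
`v` and the new vertex, and `x_e` the variable of the edge `e` of `G`. The polynomial `kir k G` is the
determinant of the reduced Laplacian of `Ĝ`,

  `L_vv = x_v + ∑_{e ∋ v} x_e`, `L_vw = - x_e` for an edge `e = {v, w}`, and `L_vw = 0` otherwise,

so (theorem of Kirchhoff) it is the sum of the products `∏_{e ∈ T} x_e` over the spanning trees `T` of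
`Ĝ`, and `X_G = kirS k G` is the graph hypersurface `kir k G = 0` in the affine space of the edges.

Let `K ⊂ ℂ` be the field of algebraic numbers, and let `M` be the category of the pure motives over `K`
in the sense of Nori (it is the category of André's motives for motivated cycles), a semisimple abelian
category with Tate twists `N ↦ N(a)`. For a separated scheme `X` of finite type over `ℚ` let `D.H i X`
be the object of `M` given by the graded object of the weight filtration of the cohomology with compact
supports `H^i_c(X_K)`; for smooth projective `X` it is the motive `h^i(X_K)`. As the weight filtration
is strict, the long exact sequence of a closed subscheme and its open complement gives an exact sequence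
in `M`. The hypothesis `IsMotives D` lists the standard properties which are used.

`P` consists of the de Rham realization, the Betti realization, the comparison isomorphism and, for each
motive `N`, the dimension of the motivic Galois group of `N`. The conjecture `GPC P N` says that the
transcendence degree over `K` of the field of periods of `N` is this dimension. The conjecture of
question Q1 for all `X` says that `GPC P` is true for all finite direct sums of Tate twists of motives
`h^i(Y_K)`, `Y` smooth projective over `ℚ`: this is `SumsHave D (OfProjAll D) (GPC P)` (every
irreducible smooth projective variety over `K` is a component of `Y_K` for a smooth projective variety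
`Y` over `ℚ`, and every finite direct sum of Tate twists of motives `h^i(Y_K)` lies in the Tannakian
category generated by the motive of one irreducible smooth projective variety).

**Theorem.**
* For every separated scheme `X` of finite type over `ℚ` and all `i` the motive of `H^i_c(X_K)` is a
  direct factor of a finite direct sum of Tate twists of motives of `H^j_c((X_G)_K)` for finite graphs
  `G`.
* The period conjecture is true for all smooth projective varieties over the field of algebraic numbers
  if and only if it is true for all finite direct sums of Tate twists of motives of
  `H^j_c((X_G)_K)` for finite graphs `G`.

The geometric theorem behind it is `Pool.Agent.H21.GH.universal`: over a noetherian ring all of whose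
elements are quotients of integers, a property of the schemes of finite type which satisfies two out of
three for closed-open decompositions and is compatible with affine bundles and products with `𝔾_m`, and
which is true for all `X_G`, is true for all schemes of finite type.
-/

set_option autoImplicit false

open CategoryTheory CategoryTheory.Limits AlgebraicGeometry Pool.Agent.Y116.UV Pool.Agent.Z125.UN
  Pool.Agent.Q193.LT Pool.Agent.H21.GH

universe v u

namespace Pool.Agent.Results.MP_caab05_ag.GraphHypersurfaces

/-- **The period conjecture and graph hypersurfaces.** See the explanations above. -/
theorem result {K : Type} [Field K] [CharZero K] [IsAlgClosure ℚ K] [Algebra K ℂ] {M : Type u}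
    [Category.{v} M] [Abelian M] {D : CompactData ℚ M} (h : IsMotives D) {P : PeriodData K M}
    (hP : IsPeriod P) :
    (∀ X : Sch ℚ, FT True X → ∀ i, FactorOfSum D (OfKir D) (D.H i X)) ∧
      (SumsHave D (OfProjAll D) (GPC P) ↔ SumsHave D (OfKir D) (GPC P)) :=
  ⟨fun X hX i => factor_kir h.compact h.semisimple frac_rat X hX i,
    sums_kir_iff h.compact h.semisimple h.generated (GPC.factor hP) frac_rat⟩

end Pool.Agent.Results.MP_caab05_ag.GraphHypersurfaces
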